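import Pool.Agent.H57.Rev.Fragment
import Pool.Agent.H57.Rev.Minimal

/-!
# Extremely left amenable semigroups of weakly continuous nonexpansive maps: reversibility

The library (`SchurCriterion`) answers the question negatively, and shows that in a Banach space `E`
the fixed point statement holds (for all `S`) if and only if `E` has the Schur property.

Here: the statement holds in **every** Banach space for every left reversible semigroup `S` (any two
closed right ideals meet, that is, the closures of `a S` and `b S` meet for all `a, b`), in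
particular for all groups and for all commutative semigroups; while for right reversible semigroups
(any two left ideals meet) it still fails in every Banach space without the Schur property. So the
failure is due to the lack of left reversibility. Both parts hold also for uniformly Lipschitz
representations.

Proof of the positive part. Let `K` be a minimal weakly compact invariant set, `x ∈ K`. The
intersection of the weak closures of the sets `R x`, `R` a closed right ideal of `S`, is a closed
nonempty set `L₀ ⊆ K` with `L₀ ⊆ T_a L₀` for all `a`. Let `L ⊆ L₀` be minimal among the nonempty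
closed sets with `L ⊆ T_a L` for all `a`. The set `L'` of the points of `L` without a relatively weakly open
neighbourhood of finite `ε`-capacity satisfies `L' ⊆ T_a L'` for all `a`, and `L' ≠ L` as `L` is
fragmented by the norm (Namioka); so `L'` is empty and `L` is norm compact. If `e` is in
the closure of `a S`, then `T_a L ⊆ T_e L`, by the compactness of `L`. So the sets `T_a L`, whose
`ε`-capacities are at most that of `L`, form an upward directed family, and their union, which is
weakly dense in `K`, has finite `ε`-capacity as well. So `K` is norm compact, the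
action on `K` is jointly continuous, and there is a fixed point.
-/

set_option autoImplicit false

open Filter Topology BoundedContinuousFunction Set
open Pool.Agent.Results.MP_155d71_an.SeparateActionFails
open Pool.Agent.Results.MP_155d71_an.SchurCriterion
open Pool.Agent.H57.Rev

namespace Pool.Agent.Results.MP_155d71_an.Reversible

universe u

variable {E : Type u} [NormedAddCommGroup E] [NormedSpace ℝ E]

/-- A norm compact, weakly closed, invariant subset of `C` contains a fixed point. -/
lemma fixed_of_compact {S : Type u} [Semigroup S] [TopologicalSpace S] [SemitopSemigroup S]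
    (hS : ExtremelyLeftAmenable S) {L : NNReal} {C : Set (Weak E)} {T : S → C → C}
    (hT : IsLipRepresentation L C T) {O : Set (Weak E)} (hOC : O ⊆ C) (hne : O.Nonempty)
    (hTO : ∀ (s : S) (x : C), (x : Weak E) ∈ O → (T s x : Weak E) ∈ O)
    (hXc : IsCompact {x : E | toW x ∈ O}) : ∃ z : C, ∀ s : S, T s z = z := by
  let X : Type u := {x : E // toW x ∈ O}
  have : CompactSpace X := isCompact_iff_compactSpace.mp hXc
  let A : S → X → X := fun s x =>
    ⟨toW.symm (T s ⟨toW x.1, hOC x.2⟩ : Weak E), by
      rw [Equiv.apply_symm_apply]; exact hTO s _ x.2⟩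
  let i : X → Weak E := fun x => toW x.1
  have hi : IsClosedEmbedding i := by
    refine (continuous_toW.comp continuous_subtype_val).isClosedEmbedding ?_
    intro x y hxy
    exact Subtype.ext (toW.injective hxy)
  have hA : ∀ s x, i (A s x) = (T s ⟨toW x.1, hOC x.2⟩ : Weak E) := fun s x =>
    Equiv.apply_symm_apply _ _
  obtain ⟨x₀, hx₀⟩ := hne
  obtain ⟨z, hz⟩ := exists_fixed_compact hS A L (fun s t x => by
      apply Subtype.ext
      apply toW.injective
      change i (A (s * t) x) = i (A s (A t x))
      rw [hA, hA, hT.mul]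
      congr 2) (fun s => LipschitzWith.of_dist_le_mul fun x y => by
      have := hT.lipschitz s ⟨toW x.1, hOC x.2⟩ ⟨toW y.1, hOC y.2⟩
      simp only [ndist, Equiv.symm_apply_apply] at this
      rw [Subtype.dist_eq, Subtype.dist_eq, dist_eq_norm, dist_eq_norm]
      exact this) (fun x => by
      rw [hi.isInducing.continuous_iff]
      have : (i ∘ fun s => A s x) = fun s => (T s ⟨toW x.1, hOC x.2⟩ : Weak E) := by
        funext s; exact hA s x
      rw [this]
      exact continuous_subtype_val.comp (hT.continuous_left _))
    ⟨toW.symm x₀, by rw [Equiv.apply_symm_apply]; exact hx₀⟩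
  refine ⟨⟨toW z.1, hOC z.2⟩, fun s => Subtype.ext ?_⟩
  rw [← hA, hz s]

lemma nonempty_of_ela {S : Type u} [Semigroup S] [TopologicalSpace S] [SemitopSemigroup S]
    (hS : ExtremelyLeftAmenable S) : Nonempty S := by
  by_contra hem
  rw [not_nonempty_iff] at hem
  obtain ⟨m, hm⟩ := hS
  have h1 : (1 : LUC S) = 0 := by
    apply Subtype.ext
    ext t
    exact hem.elim t
  have h2 := hm.add 0 0
  have h3 := hm.one
  rw [h1] at h3
  rw [add_zero, h3] at h2
  norm_num at h2

/-- The statement of the question for the Banach space `E`, for the semigroups `S` in the class `P`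
only and for representations by maps with Lipschitz constant `L`. For `L = 1` and the class of all
semigroups this is `FixedPointStatement E`, the statement of the question for `E`. -/
def LipFixedPointStatementFor (P : ∀ (S : Type u) [Semigroup S] [TopologicalSpace S], Prop)
    (L : NNReal)
    (E : Type u) [NormedAddCommGroup E] [NormedSpace ℝ E] : Prop :=
  ∀ (S : Type u) [Semigroup S] [TopologicalSpace S] [SemitopSemigroup S], P S →
    ExtremelyLeftAmenable S → ∀ (C : Set (Weak E)) (T : S → C → C), IsClosed C →
      IsLipRepresentation L C T →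
      (∃ c : C, IsCompact (closure (range fun s : S => (T s c : Weak E)))) →
      ∃ z : C, ∀ s : S, T s z = z

lemma ndist_comm (x y : Weak E) : ndist x y = ndist y x := norm_sub_rev _ _

lemma ndist_self (x : Weak E) : ndist x x = 0 := by simp [ndist]

lemma ndist_nonneg (x y : Weak E) : 0 ≤ ndist x y := norm_nonneg _

lemma isClosed_ball (x : Weak E) (ε : ℝ) : IsClosed {y : Weak E | ndist x y ≤ ε} := by
  have h := isClosed_toW (convex_closedBall (toW.symm x) ε) Metric.isClosed_closedBall
  convert h using 1
  ext y
  constructor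
  · intro hy
    refine ⟨toW.symm y, ?_, by simp⟩
    rw [Metric.mem_closedBall, dist_eq_norm, norm_sub_rev]
    exact hy
  · rintro ⟨z, hz, rfl⟩
    rw [Metric.mem_closedBall, dist_eq_norm, norm_sub_rev] at hz
    simpa [ndist] using hz

/-- The fixed point statement holds in every Banach space for left reversible semigroups. -/
theorem holds_of_leftRev [CompleteSpace E] (Λ : NNReal) :
    LipFixedPointStatementFor (fun S _ _ => LeftRev S) Λ E := by
  intro S _ _ _ hL hS C T hC hT ⟨c, hc⟩
  have hSne : Nonempty S := nonempty_of_ela hS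
  -- the weak orbit closure
  set O : Set (Weak E) := closure (range fun s : S => (T s c : Weak E)) with hO
  have hOC : O ⊆ C := closure_minimal (by rintro _ ⟨s, rfl⟩; exact (T s c).2) hC
  have hTO : ∀ (s : S) (x : C), (x : Weak E) ∈ O → (T s x : Weak E) ∈ O := by
    intro s x hx
    have h1 : x ∈ closure (range fun t : S => T t c) := by
      rw [closure_subtype]
      have : (Subtype.val '' (range fun t : S => T t c) : Set (Weak E)) =
          range fun s : S => (T s c : Weak E) := by
        rw [← range_comp]; rfl
      rw [this]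
      exact hx
    have h2 : T s x ∈ closure (T s '' (range fun t : S => T t c)) :=
      image_closure_subset_closure_image (hT.continuous_right s) ⟨x, h1, rfl⟩
    have h3 : (T s x : Weak E) ∈ closure (Subtype.val '' (T s '' (range fun t : S => T t c))) :=
      image_closure_subset_closure_image continuous_subtype_val ⟨T s x, h2, rfl⟩
    refine closure_mono ?_ h3
    rintro _ ⟨_, ⟨_, ⟨t, rfl⟩, rfl⟩, rfl⟩
    exact ⟨s * t, by simp only [hT.mul]⟩
  obtain ⟨s₀⟩ := id hSne
  -- the action on the compact space `O`
  have : CompactSpace O := isCompact_iff_compactSpace.mp hc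
  have : Nonempty O := ⟨⟨T s₀ c, subset_closure ⟨s₀, rfl⟩⟩⟩
  let A : S → O → O := fun s x => ⟨T s ⟨x.1, hOC x.2⟩, hTO s _ x.2⟩
  have hmul : ∀ s t x, A (s * t) x = A s (A t x) := by
    intro s t x
    apply Subtype.ext
    simp only [A, hT.mul]
  have hAc : ∀ s, Continuous (A s) := by
    intro s
    refine Continuous.subtype_mk ?_ _
    exact continuous_subtype_val.comp ((hT.continuous_right s).comp
      (Continuous.subtype_mk continuous_subtype_val _))
  have hAL : ∀ s x y, ndist (A s x : Weak E) (A s y) ≤ Λ * ndist (x : Weak E) y :=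
    fun s x y => hT.lipschitz s ⟨x.1, hOC x.2⟩ ⟨y.1, hOC y.2⟩
  -- an equivalent metric for which the maps are nonexpansive
  let B : Option S → O → O := fun o => o.elim id A
  have hBc : ∀ o, Continuous (B o) := by
    rintro (_ | s)
    · exact continuous_id
    · exact hAc s
  have hBL : ∀ o x y, ndist (B o x : Weak E) (B o y) ≤ (1 + Λ) * ndist (x : Weak E) y := by
    have hΛ : (0 : ℝ) ≤ Λ := Λ.2
    rintro (_ | s) x y
    · have := ndist_nonneg (x : Weak E) y
      change ndist (x : Weak E) y ≤ _
      nlinarith
    · have := ndist_nonneg (x : Weak E) y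
      have h1 := hAL s x y
      change ndist (A s x : Weak E) (A s y) ≤ _
      nlinarith
  let ρ : O → O → ℝ := fun x y => ⨆ o, ndist (B o x : Weak E) (B o y)
  have hbdd : ∀ x y, BddAbove (range fun o => ndist (B o x : Weak E) (B o y)) := by
    intro x y
    exact ⟨_, by rintro _ ⟨o, rfl⟩; exact hBL o x y⟩
  have hle : ∀ o x y, ndist (B o x : Weak E) (B o y) ≤ ρ x y := fun o x y =>
    le_ciSup (hbdd x y) o
  have hρle : ∀ x y, ρ x y ≤ (1 + Λ) * ndist (x : Weak E) y := fun x y =>
    ciSup_le fun o => hBL o x y
  have hρsymm : ∀ x y, ρ x y = ρ y x := fun x y => by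
    simp only [ρ, fun o => ndist_comm (B o x : Weak E) (B o y)]
  have hρ0 : ∀ x, ρ x x = 0 := fun x => by simp only [ρ, ndist_self, ciSup_const]
  have hρA : ∀ s x y, ρ (A s x) (A s y) ≤ ρ x y := by
    intro s x y
    refine ciSup_le fun o => ?_
    rcases o with _ | t
    · exact hle (some s) x y
    · have h1 := hle (some (t * s)) x y
      simp only [B, Option.elim_some] at h1 ⊢
      rwa [hmul, hmul] at h1
  have hρtri : ∀ x y z, ρ x z ≤ ρ x y + ρ y z := by
    intro x y z
    refine ciSup_le fun o => ?_
    have h1 := norm_sub_le_norm_sub_add_norm_sub (toW.symm (B o x : Weak E))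
      (toW.symm (B o y : Weak E)) (toW.symm (B o z : Weak E))
    have h2 := hle o x y
    have h3 := hle o y z
    simp only [ndist] at h2 h3 ⊢
    linarith
  have hρeq : ∀ x y, ρ x y ≤ 0 → x = y := by
    intro x y hxy
    have h1 : ndist (x : Weak E) y ≤ 0 := (hle none x y).trans hxy
    rw [ndist, norm_le_zero_iff, sub_eq_zero] at h1
    exact Subtype.ext (toW.symm.injective h1)
  have horb : ∀ x, Continuous fun s => A s x := fun x =>
    Continuous.subtype_mk (continuous_subtype_val.comp (hT.continuous_left ⟨x.1, hOC x.2⟩)) _
  have hρball : ∀ x ε, IsClosed {y | ρ x y ≤ ε} := by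
    intro x ε
    have h1 : {y | ρ x y ≤ ε} = ⋂ o, {y | ndist (B o x : Weak E) (B o y) ≤ ε} := by
      ext y
      simp only [mem_ofPred_eq, mem_iInter]
      exact ⟨fun h o => (hle o x y).trans h, fun h => ciSup_le h⟩
    rw [h1]
    refine isClosed_iInter fun o => ?_
    exact (isClosed_ball (B o x : Weak E) ε).preimage (continuous_subtype_val.comp (hBc o))
  have hfrag : ∀ ε : ℝ, 0 < ε → ∀ L : Set O, IsClosed L → L.Nonempty →
      ∃ U, IsOpen U ∧ (U ∩ L).Nonempty ∧ ∀ x ∈ U ∩ L, ∀ y ∈ U ∩ L, ρ x y ≤ ε := by
    intro ε hε L hLc hLne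
    have hΛ : (0 : ℝ) < 1 + Λ := by have : (0 : ℝ) ≤ Λ := Λ.2; linarith
    obtain ⟨V, hV, ⟨_, hxV, ⟨x, hx, rfl⟩⟩, hVd⟩ :=
      fragment (hLc.isCompact.image continuous_subtype_val) (hLne.image _) (div_pos hε hΛ)
    refine ⟨Subtype.val ⁻¹' V, hV.preimage continuous_subtype_val, ⟨x, hxV, hx⟩, ?_⟩
    rintro x ⟨hxV, hxL⟩ y ⟨hyV, hyL⟩
    have h1 := hVd x ⟨hxV, x, hxL, rfl⟩ y ⟨hyV, y, hyL, rfl⟩
    rw [le_div_iff₀ hΛ] at h1
    have h2 := hρle x y
    linarith
  obtain ⟨K, hK, hKne, hKinv, hKmin⟩ := exists_minimal A
  -- the minimal set as a subset of `E`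
  set K' : Set (Weak E) := Subtype.val '' K with hK'
  have hK'c : IsCompact K' := hK.isCompact.image continuous_subtype_val
  have hK'ne : K'.Nonempty := hKne.image _
  have hK'O : K' ⊆ O := by
    rintro _ ⟨x, -, rfl⟩
    exact x.2
  have hXtb : TotallyBounded {x : E | toW x ∈ K'} := by
    rw [Metric.totallyBounded_iff]
    intro ε hε
    obtain ⟨P, -, hP⟩ := net_of_minimal SemitopSemigroup.continuous_right hmul hAc horb hL hK hKne
      hKinv hKmin hρsymm hρ0 hρtri hρeq hρA hρball hfrag (half_pos hε)
    refine ⟨(fun p : O => toW.symm (p : Weak E)) '' (P : Set O), P.finite_toSet.image _, ?_⟩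
    rintro x ⟨x', hx', hxx⟩
    obtain ⟨p, hp, hpx⟩ := mem_iUnion₂.1 (hP hx')
    refine mem_iUnion₂.2 ⟨toW.symm (p : Weak E), ⟨p, hp, rfl⟩, ?_⟩
    rw [Metric.mem_ball, dist_eq_norm, norm_sub_rev]
    have h1 : ndist (p : Weak E) x' ≤ ε / 2 := (hle none p x').trans hpx
    simp only [ndist, hxx, Equiv.symm_apply_apply] at h1
    linarith
  have hXcl : IsClosed {x : E | toW x ∈ K'} := hK'c.isClosed.preimage continuous_toW
  have hXc : IsCompact {x : E | toW x ∈ K'} := hXtb.isCompact_of_isClosed hXcl
  refine fixed_of_compact hS hT (hK'O.trans hOC) hK'ne ?_ hXc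
  rintro s x ⟨x', hx', hxx⟩
  refine ⟨A s x', hKinv s x' hx', ?_⟩
  simp only [A]
  congr 2
  exact Subtype.ext hxx

lemma rightRev_NE (C : Set (Weak E)) (hC : C.Nonempty) : RightRev (NE C) := by
  obtain ⟨p, hp⟩ := hC
  intro a b
  exact ⟨cst ⟨p, hp⟩, cst ⟨p, hp⟩, rfl⟩

/-- In a Banach space without the Schur property the statement fails for right reversible
semigroups. -/
theorem schur_of_right {L : NNReal} (hL : 1 ≤ L)
    (h : LipFixedPointStatementFor (fun S _ _ => RightRev S) L E) : SchurProperty E := by
  intro x hx
  by_contra hx'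
  obtain ⟨e, he⟩ := exists_good x hx hx'
  have hT : IsRepresentation (K e) (fun (s : NE (K e)) x => s.1 x) :=
    ⟨fun _ _ _ => rfl, fun s => s.2.2, fun s => s.2.1, fun x => NE.continuous_eval x⟩
  obtain ⟨z, hz⟩ := h (NE (K e)) (rightRev_NE _ ⟨_, zero_mem⟩) (ela he) (K e) (fun s x => s.1 x)
    he.isCompact.isClosed (isLip_one hT hL)
    ⟨⟨toW 0, zero_mem⟩, he.isCompact.of_isClosed_subset isClosed_closure
      (closure_minimal (by rintro _ ⟨s, rfl⟩; exact (s.1 _).2) he.isCompact.isClosed)⟩
  have h1 := hz (cst ⟨toW 0, zero_mem⟩)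
  have h2 := hz (cst ⟨toW (e 0), e_mem 0⟩)
  have h3 : (⟨toW 0, zero_mem⟩ : K e) = ⟨toW (e 0), e_mem 0⟩ :=
    (show (⟨toW 0, zero_mem⟩ : K e) = z from h1).trans (show z = _ from h2.symm)
  have h4 : (toW 0 : Weak E) = toW (e 0) := congrArg Subtype.val h3
  have h5 : e 0 = 0 := (toW.injective h4).symm
  have h6 := he.norm 0
  rw [h5, norm_zero] at h6
  norm_num at h6

/-- **Main theorem.** (1) The question has a negative answer, in `ℓ²`, and more precisely: the
fixed point statement holds in a Banach space `E` if and only if `E` has the Schur property, and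
this is so even if it is restricted to right reversible semigroups `S` (any two left ideals meet:
`∀ a b, ∃ c d, c a = d b`).

(2) The fixed point statement holds in every Banach space for all left reversible semitopological
semigroups `S` (any two closed right ideals meet, that is, `closure (a S)` and `closure (b S)` meet
for all `a, b`), in particular for all commutative semigroups and for all groups (semigroups with a
left unit `e` and left inverses).

Both hold also for representations with a uniform Lipschitz constant `L ≥ 1` in place of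
nonexpansive ones (`L = 1`). -/
theorem result :
    (¬ FixedPointStatement Ell2) ∧
    ∀ (E : Type u) [NormedAddCommGroup E] [NormedSpace ℝ E] [CompleteSpace E],
      (FixedPointStatement E ↔ SchurProperty E) ∧
      ∀ L : NNReal, 1 ≤ L →
        (LipFixedPointStatement L E ↔ SchurProperty E) ∧
        (LipFixedPointStatementFor (fun S _ _ => ∀ a b : S, ∃ c d : S, c * a = d * b) L E ↔
          SchurProperty E) ∧
        LipFixedPointStatementFor (fun S _ _ => ∀ a b : S,
          (closure (range fun c : S => a * c) ∩ closure (range fun c : S => b * c)).Nonempty) L E ∧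
        LipFixedPointStatementFor (fun S _ _ => ∀ a b : S, a * b = b * a) L E ∧
        LipFixedPointStatementFor (fun S _ _ => ∃ e : S, (∀ a, e * a = a) ∧ ∀ a, ∃ b, b * a = e)
          L E := by
  have key : ∀ {S : Type u} [Semigroup S] [TopologicalSpace S],
      (∀ a b : S, ∃ c d : S, a * c = b * d) → LeftRev S := by
    intro S _ _ h a b
    obtain ⟨c, d, hcd⟩ := h a b
    exact ⟨a * c, subset_closure ⟨c, rfl⟩, subset_closure ⟨d, hcd.symm⟩⟩
  refine ⟨SeparateActionFails.result.{0}.2, fun E _ _ _ => ⟨(SchurCriterion.result.1 E).1,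
    fun L hL => ⟨(SchurCriterion.result.1 E).2 L hL, ⟨schur_of_right hL, fun h S _ _ _ _ => ?_⟩,
      holds_of_leftRev L, ?_, ?_⟩⟩⟩
  · exact ((SchurCriterion.result.1 E).2 L hL).2 h S
  · intro S _ _ _ h
    exact holds_of_leftRev L S (key fun a b => ⟨b, a, h a b⟩)
  · intro S _ _ _ h
    obtain ⟨e, he, hinv⟩ := h
    choose i hi using hinv
    have hri : ∀ a, a * i a = e := by
      intro a
      calc a * i a = e * (a * i a) := (he _).symm
        _ = (i (i a) * i a) * (a * i a) := by rw [hi]
        _ = i (i a) * ((i a * a) * i a) := by simp only [mul_assoc]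
        _ = i (i a) * i a := by rw [hi, he]
        _ = e := hi _
    exact holds_of_leftRev L S (key fun a b => ⟨i a, i b, by rw [hri, hri]⟩)

end Pool.Agent.Results.MP_155d71_an.Reversible
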